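import Pool.Agent.Helper50.Tm.Goals2

set_option autoImplicit false

namespace Pool.Agent.Helper40.Tm

theorem norm_inv {G A : Type} [Group G] [Fintype G] [AddCommGroup A] [DistribMulAction G A]
    (y : A) (γ : G) : γ • (∑ δ : G, δ • y) = ∑ δ : G, δ • y := by
  rw [Finset.smul_sum]
  simp_rw [smul_smul]
  exact Fintype.sum_equiv (Equiv.mulLeft γ) _ _ (fun δ => rfl)

theorem gFEXT : Pool.Agent.Helper50.Tm.FEXT := by
  classical
  intro G A _ _ _ _ A₀ A₁ hA h0 h1 hF0 hF1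
  obtain ⟨F0, hF0⟩ := hF0
  obtain ⟨F1, hF1⟩ := hF1
  have hch : ∀ c : A, ∃ w : A, (∀ γ : G, γ • w = w) ∧
      ((∃ w ∈ A₀, (∀ γ : G, γ • w = w) ∧ ∃ y ∈ A₀, w - c - ∑ γ : G, γ • y ∈ A₁) →
        ∃ y ∈ A₀, w - c - ∑ γ : G, γ • y ∈ A₁) := by
    intro c
    by_cases h : ∃ w ∈ A₀, (∀ γ : G, γ • w = w) ∧ ∃ y ∈ A₀, w - c - ∑ γ : G, γ • y ∈ A₁
    · obtain ⟨w, -, hw, hy⟩ := h
      exact ⟨w, hw, fun _ => hy⟩
    · exact ⟨0, fun γ => smul_zero γ, fun h' => absurd h' h⟩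
  choose W hWi hW using hch
  have hD : ∀ d : A, ∃ e : A, (∀ γ : G, γ • e = e) ∧ ((∀ γ : G, γ • d = d) → e = d) := by
    intro d
    by_cases h : ∀ γ : G, γ • d = d
    · exact ⟨d, h, fun _ => rfl⟩
    · exact ⟨0, fun γ => smul_zero γ, fun h' => absurd h' h⟩
  choose D hDi hD using hD
  refine ⟨(F0 ×ˢ F1).image (fun q => W q.1 + D q.2), ?_, ?_⟩
  · intro c hc γ
    obtain ⟨q, -, rfl⟩ := Finset.mem_image.1 hc
    rw [smul_add, hWi, hDi]
  · intro w hw hwi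
    obtain ⟨c, hc, y, hy, hcy⟩ := hF0 w hw (fun γ => by rw [hwi, sub_self]; exact zero_mem _)
    obtain ⟨y', hy', hcy'⟩ := hW c ⟨w, hw, hwi, y, hy, hcy⟩
    have hz : w - W c - ∑ γ : G, γ • (y - y') ∈ A₁ := by
      have h2 := A₁.sub_mem hcy hcy'
      have e : w - c - ∑ γ : G, γ • y - (W c - c - ∑ γ : G, γ • y') =
          w - W c - ∑ γ : G, γ • (y - y') := by
        simp_rw [smul_sub, Finset.sum_sub_distrib]
        abel
      rwa [e] at h2
    have hzi : ∀ γ : G, γ • (w - W c - ∑ γ : G, γ • (y - y')) =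
        w - W c - ∑ γ : G, γ • (y - y') := by
      intro γ
      rw [smul_sub, smul_sub, hwi, hWi, norm_inv]
    obtain ⟨d, hd, x, hx, hdx⟩ := hF1 _ hz hzi
    have hdi : ∀ γ : G, γ • d = d := by
      intro γ
      have e : d = (w - W c - ∑ γ : G, γ • (y - y')) - ∑ γ : G, γ • x := by
        rw [hdx]
        abel
      rw [e, smul_sub, hzi, norm_inv]
    refine ⟨W c + D d, Finset.mem_image.2 ⟨(c, d), Finset.mk_mem_product hc hd, rfl⟩,
      y - y' + x, A₀.add_mem (A₀.sub_mem hy hy') (hA hx), ?_⟩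
    rw [hD d hdi]
    have e2 : w = (w - W c - ∑ γ : G, γ • (y - y')) + W c + ∑ γ : G, γ • (y - y') := by
      abel
    rw [hdx] at e2
    calc w = d + ∑ γ : G, γ • x + W c + ∑ γ : G, γ • (y - y') := e2
      _ = W c + d + ∑ γ : G, γ • (y - y' + x) := by
        simp_rw [smul_add, Finset.sum_add_distrib]
        abel

end Pool.Agent.Helper40.Tm
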