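import Pool.Agent.Helper50.Tm.Goals2

set_option autoImplicit false

namespace Pool.Agent.Helper40.Tm

theorem gFONE : Pool.Agent.Helper50.Tm.FONE := by
  classical
  intro G A _ _ _ _ hdiv hfin
  haveI : Finite {a : A | Fintype.card G • a = 0} := hfin
  have hsn : ∀ (γ : G) (x : A), γ • (Fintype.card G • x) = Fintype.card G • (γ • x) := by
    intro γ x
    exact map_nsmul (DistribMulAction.toAddMonoidHom A γ) (Fintype.card G) x
  have hch : ∀ φ : G → {a : A | Fintype.card G • a = 0}, ∃ c : A,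
      (∃ b b' : A, Fintype.card G • b' = b ∧ ∀ γ : G, γ • b' - b' = φ γ) →
        ∃ c' : A, Fintype.card G • c' = c ∧ ∀ γ : G, γ • c' - c' = φ γ := by
    intro φ
    by_cases h : ∃ b b' : A, Fintype.card G • b' = b ∧ ∀ γ : G, γ • b' - b' = φ γ
    · obtain ⟨b, b', h1, h2⟩ := h
      exact ⟨b, fun _ => ⟨b', h1, h2⟩⟩
    · exact ⟨0, fun h' => absurd h' h⟩
  choose C hC using hch
  haveI : Fintype (G → {a : A | Fintype.card G • a = 0}) := Fintype.ofFinite _
  refine ⟨Finset.univ.image C, ?_⟩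
  intro b hb
  obtain ⟨b', hb'⟩ := hdiv b
  have hmem : ∀ γ : G, γ • b' - b' ∈ {a : A | Fintype.card G • a = 0} := by
    intro γ
    show Fintype.card G • (γ • b' - b') = 0
    rw [nsmul_sub, ← hsn, hb', hb, sub_self]
  obtain ⟨c', hc', hcc⟩ := hC (fun γ => ⟨γ • b' - b', hmem γ⟩) ⟨b, b', hb', fun γ => rfl⟩
  refine ⟨_, Finset.mem_image.2 ⟨fun γ => ⟨γ • b' - b', hmem γ⟩, Finset.mem_univ _, rfl⟩,
    b' - c', ?_⟩
  have hinv : ∀ γ : G, γ • (b' - c') = b' - c' := by
    intro γ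
    have h3 : γ • c' - c' = γ • b' - b' := hcc γ
    rw [smul_sub]
    have h4 : γ • c' = γ • b' - b' + c' := by
      rw [← h3]
      abel
    rw [h4]
    abel
  rw [Finset.sum_congr rfl (fun γ _ => hinv γ), Finset.sum_const, Finset.card_univ, nsmul_sub,
    hb', hc']
  abel

end Pool.Agent.Helper40.Tm
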